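import Pool.Agent.Lib.MP_7ed9c3_nt.Tp.AllU

/-!
# Zeros of a continuation of the L-series of an elliptic curve in almost every window

Let `K` be a number field of degree `n`, `h > 0`, and let `σ₁` satisfy one of the conditions (a), (b), (c) below.
There are `C`, `c > 0` and `V₀` such that for all `V ≥ V₀`, `H ≥ V`, all real `t₀` and every elliptic curve `E` over `K`
with at most `V` primes of bad reduction the following holds.  Let `F` be a function which is holomorphic and at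
most `exp V` in absolute value in the box `Re s > σ₁`, `|Im s - t₀| < H` and agrees there with the Euler product of `E`
for `Re s > 3/2`.  Then for every `N ≥ 1` the set of the real `t`, `|t - t₀| < H`, such that `F` has fewer than `N` different
zeros `ρ` in the window `Re ρ > σ₁`, `|Im ρ - t| < h` (of the box) has measure at most
`C (N (log V + loglog H)/log H)^c H`.

(a) `σ₁ < 1/2 + 1/(4n)`;

(b) `σ₁ < 3/4`, if there are a Galois extension `L` of `ℚ` and an automorphism `g` of `L` such that exactly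
one embedding `φ : K → L` satisfies `g²φ = φ` (for example if the Galois closure of `K` has degree `n!`,
`n ≠ 2, 3`: let `g` be a cycle of length `n - 1`; or if `K = ℚ`);

(c) `σ₁ < 1/2 + 1/(2k)`, if `k` is admissible for an automorphism `g` of a Galois extension `L` of `ℚ` which
contains `K`, that is: there is no function `ψ` on the set of the embeddings `φ : K → L` with
`ψ(gφ) = ψ(φ)` and `∑ cos(j ψ(φ)) = 0` (sum over the `φ` with `g^j φ = φ`) for all `j = 1, …, k`.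

No functional equation and no growth except the bound in the box is assumed.
-/

set_option autoImplicit false

namespace Pool.Agent.Results.MP_7ed9c3_nt.AlmostEveryWindow

open NumberField IsDedekindDomain MeasureTheory MP7ed9c3

theorem result :
    ∀ (K : Type) [Field K] [NumberField K] (σ₁ h : ℝ), 0 < h →
      (σ₁ < 1 / 2 + 1 / (4 * (Module.finrank ℚ K : ℝ)) ∨
        (σ₁ < 3 / 4 ∧ ∃ (L : Type) (_ : Field L) (_ : NumberField L) (_ : IsGalois ℚ L)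
          (g : L ≃ₐ[ℚ] L), ∃! φ : K →ₐ[ℚ] L, ((g ^ 2 : L ≃ₐ[ℚ] L) : L →ₐ[ℚ] L).comp φ = φ) ∨
        ∃ (L : Type) (_ : Field L) (_ : NumberField L) (_ : IsGalois ℚ L) (g : L ≃ₐ[ℚ] L) (k : ℕ),
          Nonempty (K →ₐ[ℚ] L) ∧ Zg.Adm (Zg.perm (K := K) g) k ∧ σ₁ < 1 / 2 + 1 / (2 * (k : ℝ))) →
      ∃ C c V₀ : ℝ, 0 < c ∧ ∀ V H t₀ : ℝ, V₀ ≤ V → V ≤ H →
        ∀ E : WeierstrassCurve K, E.IsElliptic →
        ∀ M : HeightOneSpectrum (𝓞 K) → WeierstrassCurve (𝓞 K), (∀ v, IsMinAt E v (M v)) →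
        ({v : HeightOneSpectrum (𝓞 K) | (M v).Δ ∈ v.asIdeal}.ncard : ℝ) ≤ V →
        ∀ F : ℂ → ℂ, DifferentiableOn ℂ F {s : ℂ | σ₁ < s.re ∧ |s.im - t₀| < H} →
          (∀ s : ℂ, σ₁ < s.re → |s.im - t₀| < H → ‖F s‖ ≤ Real.exp V) →
          (∀ s : ℂ, 3 / 2 < s.re → |s.im - t₀| < H →
            F s = ∏' v : HeightOneSpectrum (𝓞 K), (locDen (M v) v s)⁻¹) →
          ∀ N : ℕ, 1 ≤ N →
          volume {t : ℝ | |t - t₀| < H ∧ ¬ ∃ Y : Finset ℂ, Y.card = N ∧ ∀ ρ ∈ Y,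
              σ₁ < ρ.re ∧ |ρ.im - t| < h ∧ |ρ.im - t₀| < H ∧ F ρ = 0} ≤
            ENNReal.ofReal (C * (N * (Real.log V + Real.log (Real.log H)) / Real.log H) ^ c * H) := by
  intro K _ _ σ₁ h hh hc
  have key : ∀ b : ℝ, σ₁ < b → Tp.WindowsU h K (Aw.FewBad K) b →
      ∃ C c V₀ : ℝ, 0 < c ∧ ∀ V H t₀ : ℝ, V₀ ≤ V → V ≤ H →
        ∀ E : WeierstrassCurve K, E.IsElliptic →
        ∀ M : HeightOneSpectrum (𝓞 K) → WeierstrassCurve (𝓞 K), (∀ v, IsMinAt E v (M v)) →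
        ({v : HeightOneSpectrum (𝓞 K) | (M v).Δ ∈ v.asIdeal}.ncard : ℝ) ≤ V →
        ∀ F : ℂ → ℂ, DifferentiableOn ℂ F {s : ℂ | σ₁ < s.re ∧ |s.im - t₀| < H} →
          (∀ s : ℂ, σ₁ < s.re → |s.im - t₀| < H → ‖F s‖ ≤ Real.exp V) →
          (∀ s : ℂ, 3 / 2 < s.re → |s.im - t₀| < H →
            F s = ∏' v : HeightOneSpectrum (𝓞 K), (locDen (M v) v s)⁻¹) →
          ∀ N : ℕ, 1 ≤ N →
          volume {t : ℝ | |t - t₀| < H ∧ ¬ ∃ Y : Finset ℂ, Y.card = N ∧ ∀ ρ ∈ Y,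
              σ₁ < ρ.re ∧ |ρ.im - t| < h ∧ |ρ.im - t₀| < H ∧ F ρ = 0} ≤
            ENNReal.ofReal (C * (N * (Real.log V + Real.log (Real.log H)) / Real.log H) ^ c * H) := by
    intro b hb hW
    obtain ⟨C, c, V₀, hc, H0⟩ := hW σ₁ hb
    refine ⟨C, c, V₀, hc, fun V H t₀ hV hH E hE M hM hn F h1 h2 h3 N hN => ?_⟩
    exact H0 V H t₀ hV hH M ⟨⟨E, hE, hM⟩, (Aw.uBad K).2 E hE M hM, hn⟩ F h1 h2 h3 N hN
  have hfin := Tp.finUAll h hh K
  rcases hc with h0 | ⟨h0, L, _, _, _, g, hg⟩ | ⟨L, _, _, _, g, k, hne, hadm, h0⟩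
  · exact key _ h0 hfin.1
  · refine key _ ?_ (hfin.2 L g 2 ⟨hg.choose⟩ (Zg.admTwo _ _ ?_))
    · norm_num
      linarith
    · have e : ∀ φ : K →ₐ[ℚ] L, (Zg.perm (K := K) g ^ 2) φ = φ ↔
          ((g ^ 2 : L ≃ₐ[ℚ] L) : L →ₐ[ℚ] L).comp φ = φ := by
        intro φ
        have h1 : (Zg.perm (K := K) g ^ 2) φ = ((g ^ 2 : L ≃ₐ[ℚ] L) : L →ₐ[ℚ] L).comp φ := by
          ext x
          rfl
        rw [h1]
      simpa only [e] using hg
  · exact key _ h0 (hfin.2 L g k hne hadm)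

end Pool.Agent.Results.MP_7ed9c3_nt.AlmostEveryWindow
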