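import Pool.Agent.Lib.MP_7ed9c3_nt.Pz.FibH

/-!
# The L-series of almost all elliptic curves take all values often in every box

Let `K` be a number field of degree `n`, `σ₁ < 1`, `h > 0`, `C₀ > 0` and `κ > 0`.
There are `c > 0`, `δ > 0` and `Y₀` such that for all `Y ≥ Y₀`, all real `T₀` and all integers `A ≠ 0` of `K` with
all conjugates at most `Y` in absolute value the following holds for all but at most `Y ^ n (log Y) ^ (-1/8)` of the
integers `B` of `K` with all conjugates at most `Y` in absolute value and `4A³ + 27B² ≠ 0`: for all real `t₀`, `H` with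
`|t₀ - T₀| ≤ (log Y) ^ (1/20)`, `h ≤ H ≤ exp((log Y) ^ (1/20))` and all complex `w` with `|w - 1| ≥ κ`, `|w| ≤ Y ^ δ`,
every function which is holomorphic and at most `Y ^ C₀` in absolute value in the box `Re s > σ₁`, `|Im s - t₀| < H`
and agrees with the Euler product of `E : y² = x³ + A x + B` in the part `Re s > 3/2` of the box takes the value `w` in
the box at least `c H log Y` times, with multiplicity.

No functional equation and no growth except the bound in the box is assumed.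
-/

set_option autoImplicit false

namespace Pool.Agent.Results.MP_7ed9c3_nt.ManyZeros

open NumberField IsDedekindDomain MP7ed9c3 MP7ed9c3.Tz

/-- There is a function `F`, holomorphic and at most `b` in absolute value in the box `Re s > σ₁`,
`|Im s - t₀| < H`, which is equal to the Euler product of `E` in its part `Re s > 3/2` and takes the value `w`
in the box fewer than `N` times, with multiplicity. -/
def FewValues {K : Type} [Field K] [NumberField K] (E : WeierstrassCurve K) (σ₁ t₀ H b : ℝ) (w : ℂ)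
    (N : ℝ) : Prop :=
  ∃ (M : HeightOneSpectrum (𝓞 K) → WeierstrassCurve (𝓞 K)) (F : ℂ → ℂ),
    (∀ v, IsMinAt E v (M v)) ∧ DifferentiableOn ℂ F (box σ₁ t₀ H) ∧
    (∀ s ∈ box σ₁ t₀ H, ‖F s‖ ≤ b) ∧
    (∀ s ∈ box σ₁ t₀ H, 3 / 2 < s.re →
      F s = ∏' v : HeightOneSpectrum (𝓞 K), (locDen (M v) v s)⁻¹) ∧
    ∀ T : Finset ℂ, (∀ ρ ∈ T, ρ ∈ box σ₁ t₀ H ∧ F ρ = w) →
      ∑ ρ ∈ T, (analyticOrderNatAt (fun s => F s - w) ρ : ℝ) < N

theorem result :
    ∀ (K : Type) [Field K] [NumberField K] (σ₁ h C₀ κ : ℝ), σ₁ < 1 → 0 < h → 0 < C₀ → 0 < κ →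
    ∃ c δ Y₀ : ℝ, 0 < c ∧ 0 < δ ∧ ∀ (Y T₀ : ℝ) (A : 𝓞 K), Y₀ ≤ Y → A ≠ 0 →
      (∀ φ : K →+* ℂ, ‖φ (A : K)‖ ≤ Y) → ∀ S : Finset (𝓞 K),
      (∀ B ∈ S, (∀ φ : K →+* ℂ, ‖φ (B : K)‖ ≤ Y) ∧ 4 * A ^ 3 + 27 * B ^ 2 ≠ 0 ∧
        ∃ (t₀ H : ℝ) (w : ℂ), |t₀ - T₀| ≤ Real.log Y ^ (1 / 20 : ℝ) ∧ h ≤ H ∧
          H ≤ Real.exp (Real.log Y ^ (1 / 20 : ℝ)) ∧ κ ≤ ‖w - 1‖ ∧ ‖w‖ ≤ Y ^ δ ∧
          FewValues (crv A B) σ₁ t₀ H (Y ^ C₀) w (c * H * Real.log Y)) →
      (S.card : ℝ) ≤ Y ^ (Module.finrank ℚ K : ℝ) * Real.log Y ^ (-(1 / 8 : ℝ)) := by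
  intro K _ _ σ₁ h C₀ κ h1 h2 h3 h4
  exact Pz.pzHAll K σ₁ h C₀ κ h1 h2 h3 h4

end Pool.Agent.Results.MP_7ed9c3_nt.ManyZeros
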