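import Pool.Agent.Lib.MP_7ed9c3_nt.Vz.Val10

/-!
# Values and zeros of a continuation of the L-series of an elliptic curve over a number field

Let `F` be an entire function of finite order that agrees with the Euler product of an elliptic curve
over a number field for `Re s > 3/2`, `κ < 2/π`, `j ≥ 0`, and `P(s) = ∑_{n ≤ N} w_n n^(-s)` any Dirichlet
polynomial (`P = 0`: zeros of `F` and of its derivatives, `P = w`: solutions of `F(s) = w`, or a partial
sum of the L-series). Then `F^(j)(s) = P(s)` has more than `κ r log r` solutions in `|s| ≤ r` for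
arbitrarily large `r`. If there are at most `C r log r` solutions in `|s| ≤ r` for some `C` and all large
`r` (the number which a functional equation of any degree gives), then there is `A` such that for
arbitrarily large `r` the sum of `log(r/|ρ-3|)` over the solutions `ρ` with `|ρ-3| ≤ r` and
`3 - Re ρ ≤ A |ρ-3|/log(2+|ρ-3|)` is larger than `κ r log r`. No functional equation is assumed; over
the rational numbers the constant `2/π` is the best possible one.
-/

namespace Pool.Agent.Results.MP_7ed9c3_nt.VerticalZeros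

open NumberField IsDedekindDomain MP7ed9c3

theorem result :
    ∀ (K : Type) [Field K] [NumberField K] (E : WeierstrassCurve K), E.IsElliptic →
    ∀ M : HeightOneSpectrum (𝓞 K) → WeierstrassCurve (𝓞 K), (∀ v, IsMinAt E v (M v)) →
    ∀ F : ℂ → ℂ, Differentiable ℂ F →
      (∀ s : ℂ, 3 / 2 < s.re → F s = ∏' v : HeightOneSpectrum (𝓞 K), (locDen (M v) v s)⁻¹) →
      (∃ C a : ℝ, ∀ s : ℂ, ‖F s‖ ≤ Real.exp (C * (1 + ‖s‖) ^ a)) →
      ∀ κ : ℝ, κ < 2 / Real.pi →
      ∀ (j N : ℕ) (w : ℕ → ℂ) (P : ℂ → ℂ),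
        (∀ s : ℂ, P s = ∑ n ∈ Finset.Icc 1 N, w n * (n : ℂ) ^ (-s)) →
        (∀ r₀ : ℝ, ∃ r : ℝ, r₀ ≤ r ∧ κ * (r * Real.log r) <
          ((∑ᶠ ρ ∈ Metric.closedBall (0 : ℂ) r,
            analyticOrderNatAt (fun s => iteratedDeriv j F s - P s) ρ : ℕ) : ℝ)) ∧
        ((∃ C r₁ : ℝ, ∀ r : ℝ, r₁ ≤ r →
            ((∑ᶠ ρ ∈ Metric.closedBall (0 : ℂ) r,
              analyticOrderNatAt (fun s => iteratedDeriv j F s - P s) ρ : ℕ) : ℝ) ≤ C * (r * Real.log r)) →
          ∃ A : ℝ, 0 < A ∧ ∀ r₀ : ℝ, ∃ r : ℝ, r₀ ≤ r ∧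
            κ * (r * Real.log r) <
              ∑ᶠ ρ ∈ {ρ : ℂ | ‖ρ - 3‖ ≤ r ∧ 3 - ρ.re ≤ A * ‖ρ - 3‖ / Real.log (2 + ‖ρ - 3‖)},
                (analyticOrderNatAt (fun s => iteratedDeriv j F s - P s) ρ : ℝ) * Real.log (r / ‖ρ - 3‖)) := by
  intro K _ _ E hE M hM F hF hFE hord κ hκ j N w P hP
  exact Vz.val3All K E hE M hM F hF hFE hord κ hκ j N w P hP

end Pool.Agent.Results.MP_7ed9c3_nt.VerticalZeros
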