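import Pool.Agent.Lib.MP_7ed9c3_nt.Tz.All

/-!
# Zeros near `Re s = 1` of continuations of the L-series of almost all elliptic curves

Let `K` be a number field of degree `n` and `σ₁ < 1`.  `ZeroFree E σ₁ t₀ H V` means: there is a function
which is holomorphic, has no zeros and is at most `exp V` in absolute value in the box `Re s > σ₁`,
`|Im s - t₀| < H`, and agrees with the Euler product of `E` in the part `Re s > 3/2` of the box.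

(1) There are `κ > 0`, `δ > 0`, `Y₀` such that for all `Y ≥ Y₀`: at most `Y ^ (2n - δ)` of the pairs `(A, B)` of
integers of `K` with all conjugates at most `Y` in absolute value and `4A³ + 27B² ≠ 0` have real numbers `V`, `t₀`
with `log Y ≤ V`, `V ^ κ ≤ Y` and `ZeroFree E σ₁ t₀ (V ^ κ) V` for `E : y² = x³ + A x + B`.

(2) Let `A`, `B` be integers of `K` with `4A³ + 27B² ≠ 0`.  There are `κ > 0`, `δ > 0`, `Y₀` such that for all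
`Y ≥ Y₀`: at most `Y ^ (n - δ)` of the integers `d ≠ 0` of `K` with all conjugates at most `Y` in absolute value
have a real number `V` with `log Y ≤ V`, `V ^ κ ≤ Y` and `ZeroFree E σ₁ 0 (V ^ κ) V` for the quadratic twist
`E : y² = x³ + A d² x + B d³`.

No functional equation and no growth except the bound in the box is assumed.
-/

namespace Pool.Agent.Results.MP_7ed9c3_nt.ZerosNearOne

open NumberField IsDedekindDomain MP7ed9c3 MP7ed9c3.Tz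

theorem result :
    ∀ (K : Type) [Field K] [NumberField K] (σ₁ : ℝ), σ₁ < 1 →
    (∃ κ δ Y₀ : ℝ, 0 < κ ∧ 0 < δ ∧ ∀ Y : ℝ, Y₀ ≤ Y → ∀ S : Finset (𝓞 K × 𝓞 K),
      (∀ z ∈ S, (∀ φ : K →+* ℂ, ‖φ (z.1 : K)‖ ≤ Y ∧ ‖φ (z.2 : K)‖ ≤ Y) ∧
        4 * z.1 ^ 3 + 27 * z.2 ^ 2 ≠ 0 ∧
        ∃ V t₀ : ℝ, Real.log Y ≤ V ∧ V ^ κ ≤ Y ∧ ZeroFree (crv z.1 z.2) σ₁ t₀ (V ^ κ) V) →
      (S.card : ℝ) ≤ Y ^ (2 * (Module.finrank ℚ K : ℝ) - δ)) ∧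
    ∀ A B : 𝓞 K, 4 * A ^ 3 + 27 * B ^ 2 ≠ 0 →
      ∃ κ δ Y₀ : ℝ, 0 < κ ∧ 0 < δ ∧ ∀ Y : ℝ, Y₀ ≤ Y → ∀ S : Finset (𝓞 K),
        (∀ d ∈ S, (∀ φ : K →+* ℂ, ‖φ (d : K)‖ ≤ Y) ∧ d ≠ 0 ∧
          ∃ V : ℝ, Real.log Y ≤ V ∧ V ^ κ ≤ Y ∧
            ZeroFree (crv (A * d ^ 2) (B * d ^ 3)) σ₁ 0 (V ^ κ) V) →
        (S.card : ℝ) ≤ Y ^ ((Module.finrank ℚ K : ℝ) - δ) := by
  intro K _ _ σ₁ h
  refine ⟨?_, ?_⟩
  · obtain ⟨κ, δ, Y₀, hκ, hδ, H⟩ := curvesUniform curvesAll K σ₁ h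
    refine ⟨κ, δ, Y₀, hκ, hδ, fun Y hY S hS => H Y hY S fun z hz => ?_⟩
    obtain ⟨h4, h5, V, t₀, h6, h7, h8⟩ := hS z hz
    exact ⟨⟨fun φ => (h4 φ).1, fun φ => (h4 φ).2, h5⟩, V, h6, h7, t₀, h8⟩
  · intro A B hAB
    obtain ⟨κ, δ, Y₀, hκ, hδ, H⟩ := twistsUniform twistsAll K A B σ₁ hAB h
    refine ⟨κ, δ, Y₀, hκ, hδ, fun Y hY S hS => H Y hY S fun d hd => ?_⟩
    obtain ⟨h4, h5, V, h6, h7, h8⟩ := hS d hd
    exact ⟨⟨h4, h5⟩, V, h6, h7, h8⟩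

end Pool.Agent.Results.MP_7ed9c3_nt.ZerosNearOne
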